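import Pool.Agent.Helper32.Cotype.Defs

/-! MP_f9ce33_an, request R1 (`lp_embed`). -/

set_option autoImplicit false
open scoped BigOperators
open MeasureTheory

namespace Pool.Agent.Cotype

namespace R1

theorem p43_ne_zero : p43 ≠ 0 := by unfold p43; simp
theorem p43_ne_top : p43 ≠ ⊤ := by unfold p43; exact ENNReal.div_ne_top (by simp) (by simp)
theorem p43_toReal : p43.toReal = 4 / 3 := by unfold p43; simp [ENNReal.toReal_div]
theorem p43_eq : p43 = ENNReal.ofReal (4 / 3) := by
  rw [← p43_toReal, ENNReal.ofReal_toReal p43_ne_top]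

instance finmu : IsFiniteMeasure mu01 := by
  unfold mu01
  infer_instance

/-- norm in terms of the integral -/
theorem norm_eq (F : Lp ℝ p43 mu01) :
    ‖F‖ = (∫ t, |F t| ^ (4 / 3 : ℝ) ∂mu01) ^ (3 / 4 : ℝ) := by
  rw [Lp.norm_def, (Lp.memLp F).eLpNorm_eq_integral_rpow_norm p43_ne_zero p43_ne_top,
    ENNReal.toReal_ofReal (by positivity), p43_toReal]
  norm_num

theorem memLp_one (F : Lp ℝ p43 mu01) : Integrable F mu01 :=
  (Lp.memLp F).integrable (by exact fact43.out)

variable {X : Type} [Fintype X]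

/-- the interval attached to `x` -/
noncomputable def I (x : X) : Set ℝ :=
  Set.Ico (((Fintype.equivFin X x : ℕ) : ℝ) / Fintype.card X)
    ((((Fintype.equivFin X x : ℕ) : ℝ) + 1) / Fintype.card X)

theorem measI (x : X) : MeasurableSet (I x) := measurableSet_Ico

theorem I_subset [Nonempty X] (x : X) : I x ⊆ Set.Icc 0 1 := by
  have hN : (0 : ℝ) < Fintype.card X := by exact_mod_cast Fintype.card_pos
  intro t ht
  have h1 : (((Fintype.equivFin X x : ℕ) : ℝ) + 1) ≤ Fintype.card X := by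
    exact_mod_cast (Fintype.equivFin X x).2
  constructor
  · exact le_trans (by positivity) ht.1
  · refine ht.2.le.trans ?_
    rw [div_le_one hN]
    exact h1

theorem disjI [Nonempty X] : Pairwise (fun x y : X => Disjoint (I x) (I y)) := by
  have hN : (0 : ℝ) < Fintype.card X := by exact_mod_cast Fintype.card_pos
  intro x y hxy
  rw [Set.disjoint_left]
  intro t h1 h2
  unfold I at h1 h2
  rw [Set.mem_Ico, div_le_iff₀ hN, lt_div_iff₀ hN] at h1 h2
  have h3 : ((Fintype.equivFin X x : ℕ) : ℝ) < ((Fintype.equivFin X y : ℕ) : ℝ) + 1 := by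
    linarith
  have h4 : ((Fintype.equivFin X y : ℕ) : ℝ) < ((Fintype.equivFin X x : ℕ) : ℝ) + 1 := by
    linarith
  have h5 : (Fintype.equivFin X x : ℕ) < (Fintype.equivFin X y : ℕ) + 1 := by exact_mod_cast h3
  have h6 : (Fintype.equivFin X y : ℕ) < (Fintype.equivFin X x : ℕ) + 1 := by exact_mod_cast h4
  exact hxy ((Fintype.equivFin X).injective (Fin.ext (by omega)))

theorem mu_I [Nonempty X] (x : X) : mu01.real (I x) = 1 / (Fintype.card X : ℝ) := by
  have hN : (0 : ℝ) < Fintype.card X := by exact_mod_cast Fintype.card_pos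
  unfold mu01
  rw [measureReal_restrict_apply (measI x), Set.inter_eq_left.2 (I_subset x)]
  unfold I
  rw [Real.volume_real_Ico_of_le (by gcongr; linarith)]
  field_simp
  ring

/-- the step function -/
noncomputable def g (f : X → ℝ) (t : ℝ) : ℝ :=
  ∑ x, f x * (I x).indicator (fun _ => (Fintype.card X : ℝ) ^ (3 / 4 : ℝ)) t

theorem memLp_g [Nonempty X] (f : X → ℝ) : MemLp (g f) p43 mu01 := by
  unfold g
  refine memLp_finsetSum _ fun x _ => ?_
  exact (memLp_indicator_const p43 (measI x) _ (Or.inr (measure_ne_top _ _))).const_mul _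

theorem g_on [Nonempty X] (f : X → ℝ) {x : X} {t : ℝ} (ht : t ∈ I x) :
    g f t = f x * (Fintype.card X : ℝ) ^ (3 / 4 : ℝ) := by
  unfold g
  rw [Finset.sum_eq_single x]
  · rw [Set.indicator_of_mem ht]
  · intro y _ hy
    have : t ∉ I y := fun h => Set.disjoint_left.1 (disjI hy) h ht
    rw [Set.indicator_of_notMem this, mul_zero]
  · simp

theorem g_off (f : X → ℝ) {t : ℝ} (ht : ∀ x : X, t ∉ I x) : g f t = 0 := by
  unfold g
  refine Finset.sum_eq_zero fun x _ => ?_
  rw [Set.indicator_of_notMem (ht x), mul_zero]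

/-- the embedding -/
noncomputable def iota [Nonempty X] : (X → ℝ) →ₗ[ℝ] Lp ℝ p43 mu01 where
  toFun f := (memLp_g f).toLp (g f)
  map_add' f f' := by
    rw [← MemLp.toLp_add]
    refine MemLp.toLp_congr _ _ (Filter.Eventually.of_forall fun t => ?_)
    simp only [g, Pi.add_apply]
    rw [← Finset.sum_add_distrib]
    exact Finset.sum_congr rfl fun x _ => by ring
  map_smul' c f := by
    simp only [RingHom.id_apply]
    rw [← MemLp.toLp_const_smul]
    refine MemLp.toLp_congr _ _ (Filter.Eventually.of_forall fun t => ?_)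
    simp only [g, Pi.smul_apply, smul_eq_mul]
    rw [Finset.mul_sum]
    exact Finset.sum_congr rfl fun x _ => by ring

/-- averaging -/
noncomputable def proj [Nonempty X] : Lp ℝ p43 mu01 →ₗ[ℝ] (X → ℝ) where
  toFun F x := (Fintype.card X : ℝ) ^ (1 / 4 : ℝ) * ∫ t in I x, F t ∂mu01
  map_add' F F' := by
    ext x
    simp only [Pi.add_apply]
    rw [← mul_add, ← integral_add (memLp_one F).integrableOn (memLp_one F').integrableOn]
    congr 1
    refine integral_congr_ae (ae_restrict_of_ae ?_)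
    exact Lp.coeFn_add F F'
  map_smul' c F := by
    ext x
    simp only [Pi.smul_apply, smul_eq_mul, RingHom.id_apply]
    have h1 : ∫ t in I x, (c • F : Lp ℝ p43 mu01) t ∂mu01 = c * ∫ t in I x, F t ∂mu01 := by
      rw [← integral_const_mul]
      refine integral_congr_ae (ae_restrict_of_ae ?_)
      filter_upwards [Lp.coeFn_smul c F] with t ht
      rw [ht]; rfl
    rw [h1]; ring

theorem integrable_pow (F : Lp ℝ p43 mu01) : Integrable (fun t => |F t| ^ (4 / 3 : ℝ)) mu01 := by
  have := (Lp.memLp F).integrable_norm_rpow p43_ne_zero p43_ne_top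
  rw [p43_toReal] at this
  exact this

theorem sum_pow_le [Nonempty X] (F : Lp ℝ p43 mu01) :
    ∑ x : X, ∫ t in I x, |F t| ^ (4 / 3 : ℝ) ∂mu01 ≤ ∫ t, |F t| ^ (4 / 3 : ℝ) ∂mu01 := by
  rw [← integral_iUnion_fintype (fun x => measI x) (fun x y h => disjI h)
    (fun x => (integrable_pow F).integrableOn)]
  exact setIntegral_le_integral (integrable_pow F)
    (Filter.Eventually.of_forall fun t => by positivity)

theorem holder [Nonempty X] (F : Lp ℝ p43 mu01) (x : X) :
    |proj F x| ^ (4 / 3 : ℝ) ≤ ∫ t in I x, |F t| ^ (4 / 3 : ℝ) ∂mu01 := by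
  have hN : (0 : ℝ) < Fintype.card X := by exact_mod_cast Fintype.card_pos
  set N : ℝ := (Fintype.card X : ℝ) with hNdef
  set J : ℝ := ∫ t in I x, |F t| ^ (4 / 3 : ℝ) ∂mu01 with hJ
  have hJ0 : 0 ≤ J := integral_nonneg fun t => by positivity
  have hpq : (4 / 3 : ℝ).HolderConjugate 4 := by
    rw [Real.holderConjugate_iff]; norm_num
  have h1 := integral_mul_norm_le_Lp_mul_Lq (μ := mu01.restrict (I x)) hpq (f := F)
    (g := fun _ => (1 : ℝ)) (by rw [← p43_eq]; exact (Lp.memLp F).restrict _) (memLp_const _)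
  simp only [norm_one, mul_one, Real.norm_eq_abs, Real.one_rpow, integral_const, smul_eq_mul,
    measureReal_restrict_apply MeasurableSet.univ, Set.univ_inter, mu_I] at h1
  have h2 : |∫ t in I x, F t ∂mu01| ≤ ∫ t in I x, |F t| ∂mu01 := by
    have := norm_integral_le_integral_norm (μ := mu01.restrict (I x)) (f := F)
    simpa [Real.norm_eq_abs] using this
  have h3 : |proj F x| ≤ J ^ (3 / 4 : ℝ) := by
    have h4 : proj F x = N ^ (1 / 4 : ℝ) * ∫ t in I x, F t ∂mu01 := rfl
    rw [h4, abs_mul, abs_of_nonneg (by positivity)]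
    calc N ^ (1 / 4 : ℝ) * |∫ t in I x, F t ∂mu01|
        ≤ N ^ (1 / 4 : ℝ) * (J ^ (1 / (4 / 3) : ℝ) * (1 / N) ^ (1 / 4 : ℝ)) := by
          gcongr
          exact h2.trans h1
      _ = J ^ (3 / 4 : ℝ) := by
          rw [Real.div_rpow zero_le_one hN.le, Real.one_rpow]
          have : N ^ (1 / 4 : ℝ) ≠ 0 := (Real.rpow_pos_of_pos hN _).ne'
          field_simp
  calc |proj F x| ^ (4 / 3 : ℝ) ≤ (J ^ (3 / 4 : ℝ)) ^ (4 / 3 : ℝ) := by gcongr
    _ = J := by
      rw [← Real.rpow_mul hJ0]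
      norm_num

theorem integral_g [Nonempty X] (f : X → ℝ) :
    ∫ t, |g f t| ^ (4 / 3 : ℝ) ∂mu01 = ∑ x, |f x| ^ (4 / 3 : ℝ) := by
  have hN : (0 : ℝ) < Fintype.card X := by exact_mod_cast Fintype.card_pos
  have h1 : ∀ t, |g f t| ^ (4 / 3 : ℝ) =
      ∑ x, (I x).indicator (fun _ => |f x| ^ (4 / 3 : ℝ) * (Fintype.card X : ℝ)) t := by
    intro t
    by_cases ht : ∃ x : X, t ∈ I x
    · obtain ⟨x, hx⟩ := ht
      rw [g_on f hx, Finset.sum_eq_single x]
      · rw [Set.indicator_of_mem hx, abs_mul, Real.mul_rpow (abs_nonneg _) (abs_nonneg _),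
          abs_of_nonneg (by positivity : (0 : ℝ) ≤ (Fintype.card X : ℝ) ^ (3 / 4 : ℝ)),
          ← Real.rpow_mul hN.le]
        norm_num
      · intro y _ hy
        have : t ∉ I y := fun h => Set.disjoint_left.1 (disjI hy) h hx
        rw [Set.indicator_of_notMem this]
      · simp
    · push Not at ht
      rw [g_off f ht, abs_zero, Real.zero_rpow (by norm_num)]
      symm
      exact Finset.sum_eq_zero fun x _ => Set.indicator_of_notMem (ht x) _
  simp only [h1]
  rw [integral_finsetSum _ fun x _ => (integrable_const _).indicator (measI x)]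
  refine Finset.sum_congr rfl fun x _ => ?_
  rw [integral_indicator_const _ (measI x), mu_I, smul_eq_mul]
  field_simp

end R1

open R1 in
theorem lp_embed (X : Type) [Fintype X] [Nonempty X] :
    ∃ (ι : (X → ℝ) →ₗ[ℝ] Lp ℝ p43 mu01) (E : Lp ℝ p43 mu01 →ₗ[ℝ] (X → ℝ)),
      (∀ f, ‖ι f‖ ≤ n43 f) ∧ (∀ F, n43 (E F) ≤ ‖F‖) ∧ (∀ f, E (ι f) = f) := by
  have hN : (0 : ℝ) < Fintype.card X := by exact_mod_cast Fintype.card_pos
  refine ⟨iota, proj, fun f => ?_, fun F => ?_, fun f => ?_⟩
  · rw [norm_eq]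
    unfold n43
    have h1 : ∫ t, |iota f t| ^ (4 / 3 : ℝ) ∂mu01 = ∫ t, |g f t| ^ (4 / 3 : ℝ) ∂mu01 := by
      refine integral_congr_ae ?_
      filter_upwards [(memLp_g f).coeFn_toLp] with t ht
      have : iota f t = g f t := ht
      rw [this]
    rw [h1, integral_g]
  · rw [norm_eq]
    unfold n43
    gcongr
    exact (Finset.sum_le_sum fun x _ => holder F x).trans (sum_pow_le F)
  · ext x
    have h1 : proj (iota f) x = (Fintype.card X : ℝ) ^ (1 / 4 : ℝ) *
        ∫ t in I x, iota f t ∂mu01 := rfl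
    have h2 : ∫ t in I x, iota f t ∂mu01 =
        ∫ t in I x, f x * (Fintype.card X : ℝ) ^ (3 / 4 : ℝ) ∂mu01 := by
      have h3 : ∫ t in I x, iota f t ∂mu01 = ∫ t in I x, g f t ∂mu01 :=
        integral_congr_ae (ae_restrict_of_ae (memLp_g f).coeFn_toLp)
      rw [h3]
      exact setIntegral_congr_fun (measI x) fun t ht => g_on f ht
    rw [h1, h2, integral_const, measureReal_restrict_apply MeasurableSet.univ, Set.univ_inter,
      mu_I, smul_eq_mul]
    have h4 : (Fintype.card X : ℝ) ^ (1 / 4 : ℝ) * (Fintype.card X : ℝ) ^ (3 / 4 : ℝ) =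
        Fintype.card X := by
      rw [← Real.rpow_add hN]
      norm_num
    calc (Fintype.card X : ℝ) ^ (1 / 4 : ℝ) *
        (1 / (Fintype.card X : ℝ) * (f x * (Fintype.card X : ℝ) ^ (3 / 4 : ℝ)))
        = ((Fintype.card X : ℝ) ^ (1 / 4 : ℝ) * (Fintype.card X : ℝ) ^ (3 / 4 : ℝ)) *
          (f x / Fintype.card X) := by ring
      _ = f x := by rw [h4]; field_simp

end Pool.Agent.Cotype
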