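import Pool.Agent.Helper32.Cotype.Defs

/-! MP_f9ce33_an, requests R4b (`plancherel`) and R4c (`four_le`). -/

set_option autoImplicit false
open scoped BigOperators
open MeasureTheory

namespace Pool.Agent.Cotype

variable {K : Type} [Field K] [Fintype K]

namespace R4

theorem psi_zero {ψ : K → ℝ} (hψ : IsChar ψ) : ψ 0 = 1 := by
  have h := hψ.add 0 0
  rw [add_zero] at h
  rcases hψ.pm 0 with h1 | h1
  · exact h1
  · rw [h1] at h; norm_num at h

theorem sum_psi {ψ : K → ℝ} (hψ : IsChar ψ) : ∑ b, ψ b = 0 := by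
  obtain ⟨x, hx⟩ := hψ.nontriv
  have h1 : ∑ b, ψ b = ∑ b, ψ (b + x) :=
    (Equiv.sum_comp (Equiv.addRight x) ψ).symm
  have h2 : ∑ b, ψ (b + x) = -∑ b, ψ b := by
    rw [← Finset.sum_neg_distrib]
    refine Finset.sum_congr rfl fun b _ => ?_
    rw [hψ.add, hx]; ring
  linarith

open Classical in
theorem orth {ψ : K → ℝ} (hψ : IsChar ψ) (z : K) :
    ∑ b, ψ (b * z) = if z = 0 then (Fintype.card K : ℝ) else 0 := by
  split_ifs with h
  · subst h
    simp [psi_zero hψ]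
  · have h1 : ∑ b, ψ (b * z) = ∑ b, ψ b :=
      Equiv.sum_comp (Equiv.mulRight₀ z h) ψ
    rw [h1, sum_psi hψ]

variable [CharP K 2]

theorem add_eq_zero_iff' (x y : K) : x + y = 0 ↔ x = y := by
  rw [← CharTwo.sub_eq_add, sub_eq_zero]

/-- orthogonality in the last variable -/
theorem row {ψ : K → ℝ} (hψ : IsChar ψ) (f g : K → ℝ) :
    ∑ b, (∑ x, ψ (b * x) * f x) * (∑ x, ψ (b * x) * g x) =
      (Fintype.card K : ℝ) * ∑ x, f x * g x := by
  classical
  calc ∑ b, (∑ x, ψ (b * x) * f x) * (∑ x, ψ (b * x) * g x)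
      = ∑ b, ∑ x, ∑ y, ψ (b * (x + y)) * (f x * g y) := by
        refine Finset.sum_congr rfl fun b _ => ?_
        rw [Finset.sum_mul_sum]
        refine Finset.sum_congr rfl fun x _ => Finset.sum_congr rfl fun y _ => ?_
        rw [mul_add, hψ.add]; ring
    _ = ∑ x, ∑ y, (∑ b, ψ (b * (x + y))) * (f x * g y) := by
        rw [Finset.sum_comm]
        refine Finset.sum_congr rfl fun x _ => ?_
        rw [Finset.sum_comm]
        refine Finset.sum_congr rfl fun y _ => ?_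
        rw [Finset.sum_mul]
    _ = ∑ x, (Fintype.card K : ℝ) * (f x * g x) := by
        refine Finset.sum_congr rfl fun x _ => ?_
        rw [Finset.sum_eq_single x]
        · rw [orth hψ, if_pos ((add_eq_zero_iff' x x).2 rfl)]
        · intro y _ hy
          rw [orth hψ, if_neg (fun h => hy ((add_eq_zero_iff' x y).1 h).symm), zero_mul]
        · simp
    _ = _ := by rw [Finset.mul_sum]

end R4

open R4 in
theorem plancherel {K : Type} [Field K] [Fintype K] [CharP K 2] (ψ : K → ℝ) (hψ : IsChar ψ)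
    (c c' : K × K → ℝ) :
    ∑ t, Rop ψ c t * Rop ψ c' t = (Fintype.card K : ℝ) ^ 3 * ∑ p, c p * c' p := by
  simp only [Fintype.sum_prod_type]
  have h1 : ∀ l m : K, ∑ a : K, ∑ b : K, Rop ψ c (l, m, a, b) * Rop ψ c' (l, m, a, b) =
      (Fintype.card K : ℝ) * ∑ x, ∑ y, c (x, y) * c' (x, y) := by
    intro l m
    have h2 : ∀ a : K, ∑ b : K, Rop ψ c (l, m, a, b) * Rop ψ c' (l, m, a, b) =
        (Fintype.card K : ℝ) * ∑ x, c (x, l * x + m * x ^ 2 + a) * c' (x, l * x + m * x ^ 2 + a) :=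
      fun a => row hψ (fun x => c (x, l * x + m * x ^ 2 + a))
        (fun x => c' (x, l * x + m * x ^ 2 + a))
    rw [Finset.sum_congr rfl fun a _ => h2 a, ← Finset.mul_sum, Finset.sum_comm]
    congr 1
    refine Finset.sum_congr rfl fun x _ => ?_
    exact Equiv.sum_comp (Equiv.addLeft (l * x + m * x ^ 2)) (fun y => c (x, y) * c' (x, y))
  rw [Finset.sum_congr rfl fun l _ => Finset.sum_congr rfl fun m _ => h1 l m]
  simp only [Finset.sum_const, Finset.card_univ, nsmul_eq_mul]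
  ring

namespace R4

variable [CharP K 2]

open Classical in
theorem orth2 {ψ : K → ℝ} (hψ : IsChar ψ) (h : K × K) :
    ∑ p : K × K, ψ (p.1 * h.1 + p.2 * h.2) = if h = 0 then (Fintype.card K : ℝ) ^ 2 else 0 := by
  rw [Fintype.sum_prod_type]
  have h1 : ∀ x y : K, ψ ((x, y).1 * h.1 + (x, y).2 * h.2) = ψ (x * h.1) * ψ (y * h.2) :=
    fun x y => hψ.add _ _
  simp only [h1]
  rw [← Finset.sum_mul_sum, orth hψ, orth hψ]
  by_cases h2 : h = 0
  · simp [h2]; ring
  · rw [if_neg h2]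
    by_cases h3 : h.1 = 0
    · have h4 : h.2 ≠ 0 := fun h5 => h2 (Prod.ext h3 h5)
      simp [h4]
    · simp [h3]

/-- Parseval on `K × K`. -/
theorem parseval2 {ψ : K → ℝ} (hψ : IsChar ψ) (A B : K × K → ℝ) :
    ∑ p : K × K, (∑ q : K × K, ψ (p.1 * q.1 + p.2 * q.2) * A q) *
      (∑ q : K × K, ψ (p.1 * q.1 + p.2 * q.2) * B q) =
      (Fintype.card K : ℝ) ^ 2 * ∑ q, A q * B q := by
  classical
  calc _ = ∑ p : K × K, ∑ x : K × K, ∑ y : K × K,
        ψ (p.1 * (x + y).1 + p.2 * (x + y).2) * (A x * B y) := by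
        refine Finset.sum_congr rfl fun p _ => ?_
        rw [Finset.sum_mul_sum]
        refine Finset.sum_congr rfl fun x _ => Finset.sum_congr rfl fun y _ => ?_
        have : p.1 * (x + y).1 + p.2 * (x + y).2 =
            (p.1 * x.1 + p.2 * x.2) + (p.1 * y.1 + p.2 * y.2) := by
          simp only [Prod.fst_add, Prod.snd_add]; ring
        rw [this, hψ.add (p.1 * x.1 + p.2 * x.2)]; ring
    _ = ∑ x : K × K, ∑ y : K × K,
        (∑ p : K × K, ψ (p.1 * (x + y).1 + p.2 * (x + y).2)) * (A x * B y) := by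
        rw [Finset.sum_comm]
        refine Finset.sum_congr rfl fun x _ => ?_
        rw [Finset.sum_comm]
        refine Finset.sum_congr rfl fun y _ => ?_
        rw [Finset.sum_mul]
    _ = ∑ x : K × K, (Fintype.card K : ℝ) ^ 2 * (A x * B x) := by
        refine Finset.sum_congr rfl fun x _ => ?_
        have h0 : ∀ y : K × K, x + y = 0 ↔ x = y := fun y => by
          rw [Prod.ext_iff, Prod.ext_iff]
          simp only [Prod.fst_add, Prod.snd_add, Prod.fst_zero, Prod.snd_zero, add_eq_zero_iff']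
        rw [Finset.sum_eq_single x]
        · rw [orth2 hψ, if_pos ((h0 x).2 rfl)]
        · intro y _ hy
          rw [orth2 hψ, if_neg (fun h => hy ((h0 y).1 h).symm), zero_mul]
        · simp
    _ = _ := by rw [Finset.mul_sum]

/-- autocorrelation -/
noncomputable def cor (c : K × K → ℝ) (h : K × K) : ℝ := ∑ q, c q * c (q + h)

theorem add_self' (x : K × K) : x + x = 0 := by
  rw [Prod.ext_iff]
  simp [CharTwo.add_self_eq_zero]

theorem sq_fourier {ψ : K → ℝ} (hψ : IsChar ψ) (c : K × K → ℝ) (p : K × K) :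
    (∑ q : K × K, ψ (p.1 * q.1 + p.2 * q.2) * c q) ^ 2 =
      ∑ h : K × K, ψ (p.1 * h.1 + p.2 * h.2) * cor c h := by
  rw [sq, Finset.sum_mul_sum]
  unfold cor
  simp only [Finset.mul_sum]
  rw [Finset.sum_comm (s := Finset.univ) (t := Finset.univ)
    (f := fun h q => ψ (p.1 * h.1 + p.2 * h.2) * (c q * c (q + h)))]
  refine Finset.sum_congr rfl fun q _ => ?_
  rw [← Equiv.sum_comp (Equiv.addLeft q) (fun q' => ψ (p.1 * q.1 + p.2 * q.2) * c q *
    (ψ (p.1 * q'.1 + p.2 * q'.2) * c q'))]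
  refine Finset.sum_congr rfl fun h _ => ?_
  simp only [Equiv.coe_addLeft]
  have h1 : p.1 * (q + h).1 + p.2 * (q + h).2 =
      (p.1 * q.1 + p.2 * q.2) + (p.1 * h.1 + p.2 * h.2) := by
    simp only [Prod.fst_add, Prod.snd_add]; ring
  rw [h1, hψ.add (p.1 * q.1 + p.2 * q.2)]
  have h2 : ψ (p.1 * q.1 + p.2 * q.2) * ψ (p.1 * q.1 + p.2 * q.2) = 1 := by
    rcases hψ.pm (p.1 * q.1 + p.2 * q.2) with h | h <;> rw [h] <;> norm_num
  linear_combination (c q * c (q + h) * ψ (p.1 * h.1 + p.2 * h.2)) * h2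

theorem sum_Hm_four {ψ : K → ℝ} (hψ : IsChar ψ) (c : K × K → ℝ) :
    (Fintype.card K : ℝ) ^ 2 * ∑ p, (∑ q, Hm ψ p q * c q) ^ 4 = ∑ h, cor c h ^ 2 := by
  have hQ : (0 : ℝ) < Fintype.card K := by exact_mod_cast Fintype.card_pos
  have h1 : ∀ p : K × K, (∑ q, Hm ψ p q * c q) ^ 4 = (1 / (Fintype.card K : ℝ) ^ 4) *
      ((∑ h : K × K, ψ (p.1 * h.1 + p.2 * h.2) * cor c h) *
        (∑ h : K × K, ψ (p.1 * h.1 + p.2 * h.2) * cor c h)) := by
    intro p
    rw [← sq_fourier hψ]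
    have h2 : ∑ q, Hm ψ p q * c q =
        (1 / (Fintype.card K : ℝ)) * ∑ q : K × K, ψ (p.1 * q.1 + p.2 * q.2) * c q := by
      rw [Finset.mul_sum]
      refine Finset.sum_congr rfl fun q _ => ?_
      unfold Hm; ring
    rw [h2]
    ring
  rw [Finset.sum_congr rfl fun p _ => h1 p, ← Finset.mul_sum, parseval2 hψ]
  have h3 : ∑ q, cor c q * cor c q = ∑ h, cor c h ^ 2 :=
    Finset.sum_congr rfl fun q _ => (sq _).symm
  rw [h3]
  field_simp

end R4

open R4 in
theorem four_le {K : Type} [Field K] [Fintype K] [CharP K 2] (ψ : K → ℝ) (hψ : IsChar ψ)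
    (c : K × K → ℝ) :
    ∑ p, c p ^ 4 + ∑ p, (∑ q, Hm ψ p q * c q) ^ 4 ≤
      (1 + 1 / (Fintype.card K : ℝ)) * (∑ p, c p ^ 2) ^ 2 := by
  classical
  have hQ : (0 : ℝ) < Fintype.card K := by exact_mod_cast Fintype.card_pos
  have hQ1 : (1 : ℝ) ≤ Fintype.card K := by exact_mod_cast Fintype.card_pos
  set Q : ℝ := (Fintype.card K : ℝ) with hQdef
  have h1 := sum_Hm_four hψ c
  have h2 : ∑ h, cor c h ^ 2 = (∑ p, c p ^ 2) ^ 2 + ∑ h ∈ Finset.univ.erase 0, cor c h ^ 2 := by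
    rw [← Finset.add_sum_erase _ _ (Finset.mem_univ (0 : K × K))]
    congr 2
    unfold cor
    refine Finset.sum_congr rfl fun q _ => ?_
    rw [add_zero]; ring
  have h3 : ∀ h : K × K, cor c h ^ 2 ≤ Q ^ 2 * ∑ q, c q ^ 2 * c (q + h) ^ 2 := by
    intro h
    have := sq_sum_le_card_mul_sum_sq (s := (Finset.univ : Finset (K × K)))
      (f := fun q => c q * c (q + h))
    rw [Finset.card_univ, Fintype.card_prod] at this
    push_cast at this
    unfold cor
    calc (∑ q, c q * c (q + h)) ^ 2 ≤ _ := this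
      _ = Q ^ 2 * ∑ q, c q ^ 2 * c (q + h) ^ 2 := by
        rw [sq Q]
        congr 1
        refine Finset.sum_congr rfl fun q _ => by ring
  have h4 : ∑ h ∈ Finset.univ.erase (0 : K × K), ∑ q, c q ^ 2 * c (q + h) ^ 2 =
      (∑ p, c p ^ 2) ^ 2 - ∑ p, c p ^ 4 := by
    have h5 : ∑ h : K × K, ∑ q, c q ^ 2 * c (q + h) ^ 2 = (∑ p, c p ^ 2) ^ 2 := by
      rw [Finset.sum_comm, sq, Finset.sum_mul_sum]
      refine Finset.sum_congr rfl fun q _ => ?_
      exact Equiv.sum_comp (Equiv.addLeft q) (fun y => c q ^ 2 * c y ^ 2)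
    rw [← h5, ← Finset.add_sum_erase _ _ (Finset.mem_univ (0 : K × K))]
    have h6 : ∑ q : K × K, c q ^ 2 * c (q + 0) ^ 2 = ∑ p, c p ^ 4 :=
      Finset.sum_congr rfl fun q _ => by rw [add_zero]; ring
    rw [h6]; ring
  have h7 : ∑ h ∈ Finset.univ.erase (0 : K × K), cor c h ^ 2 ≤
      Q ^ 2 * ((∑ p, c p ^ 2) ^ 2 - ∑ p, c p ^ 4) := by
    rw [← h4, Finset.mul_sum]
    exact Finset.sum_le_sum fun h _ => h3 h
  have h8 : Q ^ 2 * (∑ p, c p ^ 4 + ∑ p, (∑ q, Hm ψ p q * c q) ^ 4) ≤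
      Q ^ 2 * ((1 + 1 / Q) * (∑ p, c p ^ 2) ^ 2) := by
    have h9 : Q ^ 2 * ((1 + 1 / Q) * (∑ p, c p ^ 2) ^ 2) =
        Q ^ 2 * (∑ p, c p ^ 2) ^ 2 + Q * (∑ p, c p ^ 2) ^ 2 := by
      field_simp
    rw [h9, mul_add, h1, h2]
    have h10 : (∑ p, c p ^ 2) ^ 2 ≤ Q * (∑ p, c p ^ 2) ^ 2 :=
      le_mul_of_one_le_left (sq_nonneg _) hQ1
    nlinarith [h7, h10]
  exact le_of_mul_le_mul_left h8 (by positivity)

end Pool.Agent.Cotype
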